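import Pool.Agent.helper60.DA.SpecJ

/-!
# Row dj:JF
-/

set_option autoImplicit false

namespace Pool.Agent.helper60.DA

open Polynomial Finset Pool.Agent.helper60.DK

theorem JF_qc_mul {p : ℕ} [Fact p.Prime] (s t : ZMod p) : qc p (s * t) = qc p s * qc p t := by
  unfold qc
  rw [map_mul, Int.cast_mul]

/-- **JF**. -/
theorem JF (h1 : OM_stmt) (h2 : QC_stmt) : JF_stmt := by
  intro p _ hp3 hp6
  obtain ⟨hmul, hone, _, hpow, _, _, _⟩ := h1 p hp3
  obtain ⟨f, hf⟩ : ∃ f : ℕ, f = p / 6 := ⟨_, rfl⟩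
  have hpf : p - 1 = 6 * f := by omega
  have hhf : hh p = 3 * f := by
    unfold hh
    omega
  rw [← hf, Finset.mul_sum]
  refine Finset.sum_bij' (fun t _ => t⁻¹) (fun t _ => t⁻¹) ?_ ?_ ?_ ?_ ?_
  · intro t ht
    exact Finset.mem_erase.2 ⟨inv_ne_zero (Finset.mem_erase.1 ht).1, Finset.mem_univ _⟩
  · intro t ht
    exact Finset.mem_erase.2 ⟨inv_ne_zero (Finset.mem_erase.1 ht).1, Finset.mem_univ _⟩
  · intro t _
    exact inv_inv t
  · intro t _
    exact inv_inv t
  · intro t ht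
    have ht0 : t ≠ 0 := (Finset.mem_erase.1 ht).1
    have e1 : om p t * om p t⁻¹ = 1 := by
      rw [← hmul, mul_inv_cancel₀ ht0, hone]
    have e2 : om p t⁻¹ ^ (6 * f) = 1 := by
      rw [← hpf]
      exact hpow _ (inv_ne_zero ht0)
    have e3 : qc p t = om p t ^ (3 * f) := by
      rw [← hhf]
      exact (h2 p hp3 t ht0).symm
    have e4 : 1 - t = (-1) * ((1 - t⁻¹) * t) := by
      rw [sub_mul, inv_mul_cancel₀ ht0]
      ring
    have e5 : qc p (1 - t) = qc p (-1) * (qc p (1 - t⁻¹) * qc p t) := by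
      rw [e4, JF_qc_mul, JF_qc_mul]
    have e6 : om p t ^ (5 * f) * om p t ^ (3 * f) = om p t⁻¹ ^ (4 * f) := by
      have h : om p t ^ (8 * f) * om p t⁻¹ ^ (8 * f) = 1 := by
        rw [← mul_pow, e1, one_pow]
      have h' : om p t⁻¹ ^ (12 * f) = 1 := by
        have : 12 * f = 6 * f * 2 := by ring
        rw [this, pow_mul, e2, one_pow]
      calc om p t ^ (5 * f) * om p t ^ (3 * f)
          = om p t ^ (8 * f) * om p t⁻¹ ^ (12 * f) := by
            rw [h', mul_one, ← pow_add]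
            congr 1
            ring
        _ = (om p t ^ (8 * f) * om p t⁻¹ ^ (8 * f)) * om p t⁻¹ ^ (4 * f) := by
            rw [mul_assoc, ← pow_add]
            congr 2
            ring
        _ = om p t⁻¹ ^ (4 * f) := by rw [h, one_mul]
    rw [e5, e3, ← e6]
    ring

end Pool.Agent.helper60.DA
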