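import Pool.Agent.helper60.DA.SpecV

/-!
# Row dv:JS1
-/

set_option autoImplicit false

namespace Pool.Agent.helper60.DA

open Polynomial Finset Pool.Agent.helper60.DK

/-- **JS1**. -/
theorem JS1 (h1 : IT_stmt) (h2 : JH_stmt) : JS1_stmt := by
  intro p hp hp5
  have hodd : p % 2 = 1 := by
    rcases hp.out.eq_two_or_odd with h | h
    · omega
    · exact h
  have hh2 : 2 * ((hh p : ℕ) : ℤ) + 1 = (p : ℤ) := by
    unfold hh
    omega
  choose c hc using h1 p hp5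
  refine ⟨∑ m ∈ range (2 * hh p + 2), C (c m * 16 ^ (2 * hh p + 1 - m))
        * (X ^ (2 * m) * (1 + X) ^ (3 * (2 * hh p + 1 - m)))
      - C 9 * (X ^ 2 * (1 + 4 * X) * S1 p ^ 2), ?_⟩
  have e1 : ∑ m ∈ range (2 * hh p + 2), C (Iq (hh p) ak m * 16 ^ (2 * hh p + 1 - m))
        * (X ^ (2 * m) * (1 + X) ^ (3 * (2 * hh p + 1 - m))) =
      C ((p : ℤ) ^ 2) * ∑ m ∈ range (2 * hh p + 2), C (c m * 16 ^ (2 * hh p + 1 - m))
        * (X ^ (2 * m) * (1 + X) ^ (3 * (2 * hh p + 1 - m))) := by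
    rw [Finset.mul_sum]
    refine Finset.sum_congr rfl fun m _ => ?_
    rw [hc m, mul_assoc, C_mul, mul_assoc]
  have e2 := h2 (hh p) ak
  rw [hh2, e1] at e2
  change Jop (Hh (hh p) ak) = _
  rw [e2]
  change _ - _ * (X ^ 2 * (1 + 4 * X) * S1 p ^ 2) + _ * (X ^ 2 * (1 + X) * (1 + 4 * X) *
      (S1 p * derivative (S1 p))) + _ * (X * (1 + 8 * X + 10 * X ^ 2) * S1 p ^ 2) = _
  generalize (∑ m ∈ range (2 * hh p + 2), C (c m * 16 ^ (2 * hh p + 1 - m))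
        * ((X : ℤ[X]) ^ (2 * m) * (1 + X) ^ (3 * (2 * hh p + 1 - m)))) = Q
  simp only [C_add, C_mul, C_pow]
  ring

end Pool.Agent.helper60.DA
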