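import Pool.Agent.helper60.DA.SpecW

/-!
# Row dw:M3
-/

set_option autoImplicit false

namespace Pool.Agent.helper60.DA

open Polynomial Finset Pool.Agent.helper60.DK

/-- **M3**. -/
theorem M3 : M3_stmt := by
  intro p hp hp5 hp3
  have hh2 := two_hh (p := p) hp5
  have h3 : Fact (Nat.Prime 3) := ⟨Nat.prime_three⟩
  obtain ⟨w, hw⟩ := exists_prime_orderOf_dvd_card (G := (ZMod p)ˣ) 3 (by
    rw [ZMod.card_units p]
    omega)
  have e1 : w ^ 3 = 1 := by
    rw [← hw]
    exact pow_orderOf_eq_one w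
  have e2 : w ≠ 1 := by
    intro h
    rw [h, orderOf_one] at hw
    omega
  have e3 : ((w : (ZMod p)ˣ) : ZMod p) ^ 3 = 1 := by
    rw [← Units.val_pow_eq_pow_val, e1, Units.val_one]
  have e4 : ((w : (ZMod p)ˣ) : ZMod p) - 1 ≠ 0 := by
    intro h
    exact e2 (Units.ext (sub_eq_zero.1 h))
  have e5 : ((w : (ZMod p)ˣ) : ZMod p) ^ 2 + (w : ZMod p) + 1 = 0 := by
    have : (((w : (ZMod p)ˣ) : ZMod p) - 1) * (((w : (ZMod p)ˣ) : ZMod p) ^ 2 + (w : ZMod p) + 1) = 0 := by
      linear_combination e3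
    exact (mul_eq_zero.1 this).resolve_left e4
  have e6 : (-3 : ZMod p) = (2 * (w : ZMod p) + 1) ^ 2 := by
    linear_combination (-4) * e5
  have e7 : (2 * (w : ZMod p) + 1) ≠ 0 := by
    intro h
    rw [h] at e6
    have h30 : ((3 : ℕ) : ZMod p) = 0 := by
      push_cast
      linear_combination -e6
    rw [ZMod.natCast_eq_zero_iff] at h30
    have := Nat.le_of_dvd (by norm_num) h30
    omega
  rw [e6, ← pow_mul]
  have e8 : 2 * hh p = p - 1 := by omega
  rw [e8]
  exact ZMod.pow_card_sub_one_eq_one e7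

end Pool.Agent.helper60.DA
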