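import Pool.Agent.helper60.DA.SpecV

/-!
# Row dv:SQ
-/

set_option autoImplicit false

namespace Pool.Agent.helper60.DA

open Polynomial Finset Pool.Agent.helper60.DK

theorem SQ_rd_qc {p : ℕ} [Fact p.Prime] (hp5 : 5 ≤ p) (t : ZMod p) :
    rd p (qc p t) = t ^ hh p := by
  unfold qc
  rw [rd_intCast, quadraticChar_eq_pow_of_char_ne_two' (by rw [ZMod.ringChar_zmod_n]; omega),
    ZMod.card]
  congr 1
  have := two_hh (p := p) hp5
  omega

theorem SQ_qc_sq {p : ℕ} [Fact p.Prime] {t : ZMod p} (ht : t ≠ 0) : qc p t ^ 2 = 1 := by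
  unfold qc
  rw [← Int.cast_pow, quadraticChar_sq_one ht, Int.cast_one]

theorem SQ_gen {p : ℕ} [Fact p.Prime] (hp5 : 5 ≤ p) (a : ℤ) (ha : ¬ (p : ℤ) ∣ a) :
    (a : ZMod (p ^ 2)) ^ hh p = qc p (a : ZMod p) * (1 + lp p (((fq p a : ℤ) : ZMod p) / 2)) := by
  have ha' : (a : ZMod p) ≠ 0 := by
    rw [Ne, int_dvd_iff]
    exact ha
  have h2 : (2 : ZMod p) ≠ 0 := by
    have : ((2 : ℕ) : ZMod p) ≠ 0 := by
      rw [Ne, ZMod.natCast_eq_zero_iff]
      intro h
      have := Nat.le_of_dvd (by norm_num) h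
      omega
    exact_mod_cast this
  have hh2 := two_hh (p := p) hp5
  have e1 : ((a : ZMod (p ^ 2)) ^ hh p) ^ 2 = 1 + lp p ((fq p a : ℤ) : ZMod p) := by
    rw [← pow_mul, lp_intCast]
    have e : hh p * 2 = p - 1 := by omega
    rw [e]
    have h := fq_spec ha
    have h' : ((((p : ℤ) * fq p a : ℤ)) : ZMod (p ^ 2)) = ((a ^ (p - 1) - 1 : ℤ) : ZMod (p ^ 2)) := by
      rw [h]
    push_cast at h'
    linear_combination -h'
  have e2 : (qc p (a : ZMod p) * (1 + lp p (((fq p a : ℤ) : ZMod p) / 2))) ^ 2 =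
      1 + lp p ((fq p a : ℤ) : ZMod p) := by
    have h3 := lp_mul_lp (p := p) (((fq p a : ℤ) : ZMod p) / 2) (((fq p a : ℤ) : ZMod p) / 2)
    have h4 := lp_add (p := p) (((fq p a : ℤ) : ZMod p) / 2) (((fq p a : ℤ) : ZMod p) / 2)
    have h5 : ((fq p a : ℤ) : ZMod p) / 2 + ((fq p a : ℤ) : ZMod p) / 2 = ((fq p a : ℤ) : ZMod p) := by
      rw [← mul_two, div_mul_cancel₀ _ h2]
    rw [h5] at h4
    rw [mul_pow, SQ_qc_sq ha', h4]
    linear_combination h3
  have e3 : ((a : ZMod (p ^ 2)) ^ hh p - qc p (a : ZMod p) *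
      (1 + lp p (((fq p a : ℤ) : ZMod p) / 2))) * ((a : ZMod (p ^ 2)) ^ hh p +
      qc p (a : ZMod p) * (1 + lp p (((fq p a : ℤ) : ZMod p) / 2))) = 0 := by
    linear_combination e1 - e2
  have e4 : IsUnit ((a : ZMod (p ^ 2)) ^ hh p +
      qc p (a : ZMod p) * (1 + lp p (((fq p a : ℤ) : ZMod p) / 2))) := by
    apply isUnit_of_rd_ne_zero
    rw [map_add, map_mul, map_add, rd_lp, map_one, map_pow, rd_intCast, SQ_rd_qc hp5, add_zero,
      mul_one, ← two_mul]
    exact mul_ne_zero h2 (pow_ne_zero _ ha')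
  have e5 := e4.mul_left_eq_zero.1 e3
  exact sub_eq_zero.1 e5

/-- **SQ**. -/
theorem SQ : SQ_stmt := by
  intro p hp hp5
  constructor
  · have h := SQ_gen hp5 2 (by
      intro h
      have := Int.le_of_dvd (by norm_num) h
      omega)
    unfold Q2
    simpa using h
  · have h := SQ_gen hp5 3 (by
      intro h
      have := Int.le_of_dvd (by norm_num) h
      omega)
    unfold Q3
    simpa using h

end Pool.Agent.helper60.DA
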